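import Pool.Agent.TH309.LA.NL
import Pool.Agent.TH309.LA.Open
import Pool.Agent.TH309.LA.Inv
import Pool.Agent.TH309.Tor.Sm

/-!
# A globally integrable metric on the two-torus which is not of Liouville type

There is a smooth Riemannian metric on `𝕋² = ℝ²/ℤ²` such that an open dense subset of `T*𝕋²` is
foliated by invariant Lagrangian tori of the geodesic flow, and which is not of Liouville type.

Everything is written on the universal covers: the torus is `ℝ²/ℤ²`, its cotangent bundle is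
`(ℝ² × ℝ²)/ℤ²`, where `k ∈ ℤ²` acts by `(x, p) ↦ (x + k, p)`, and subsets of `T*𝕋²` are given by
their (invariant) preimages in `ℝ² × ℝ²`.

Idea of the proof. The metric is `(2 dx² + 2 dx dy + 2 dy²)/S`, with a function `S` for which the
geodesic flow has a first integral of degree three in the momenta. The equations for `S` are a
hyperbolic system of quasilinear equations; `S` is built out of three families of plane waves, one
for each side of the hexagonal lattice, which cross each other only two at a time. The crossing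
solution of two waves is constructed with the help of Riemann invariants. If the waves are small,
then the critical values of the energy-momentum map are exhausted by a scale invariant function and
have a dense complement by Sard's theorem; the regular levels are tori by the Liouville-Arnold
theorem, which is proved in `Pool/Agent/TH309/LA`. The metric is not of Liouville type, since a
Liouville form would be conformal to the flat hexagonal form, hence affine by Liouville's theorem,
and the profiles of two of the three wave families would be affine.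
-/

set_option autoImplicit false

open Set
open scoped ContDiff

namespace Pool.Agent.Results.MP_238ae6_gt.NonLiouville

/-- The plane, universal cover of `𝕋² = ℝ²/ℤ²`. -/
abbrev Plane : Type := Fin 2 → ℝ

/-- `T*ℝ²`, points `(x, p)`; universal cover of `T*𝕋²`. -/
abbrev Phase : Type := Plane × Plane

/-- The action of `ℤ²` on `T*ℝ²`: the translation `(x, p) ↦ (x + k, p)`. -/
def shift (k : Fin 2 → ℤ) (z : Phase) : Phase := (z.1 + fun i => (k i : ℝ), z.2)

/-- Smooth Riemannian metrics on `𝕋²`: smooth `ℤ²`-periodic positive definite symmetric matrix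
functions on the plane. -/
def IsMetric (g : Plane → Matrix (Fin 2) (Fin 2) ℝ) : Prop :=
  (∀ i j, ContDiff ℝ ∞ fun x => g x i j) ∧ (∀ x, (g x).PosDef) ∧
    ∀ (x : Plane) (k : Fin 2 → ℤ), g (x + fun i => (k i : ℝ)) = g x

/-- The Hamiltonian `H(x, p) = ½ |p|²` of the geodesic flow, `|p|² = p · g(x)⁻¹ p`. -/
noncomputable def energy (g : Plane → Matrix (Fin 2) (Fin 2) ℝ) (z : Phase) : ℝ :=
  1 / 2 * (z.2 ⬝ᵥ (g z.1)⁻¹.mulVec z.2)

/-- The Hamiltonian vector field `(∂H/∂p, -∂H/∂x)`; its flow is the geodesic flow. -/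
noncomputable def hamField (g : Plane → Matrix (Fin 2) (Fin 2) ℝ) (z : Phase) : Phase :=
  (fun i => fderiv ℝ (energy g) z (0, Pi.single i 1),
    fun i => -fderiv ℝ (energy g) z (Pi.single i 1, 0))

/-- The canonical symplectic form. -/
def omega (v w : Phase) : ℝ := v.1 ⬝ᵥ w.2 - w.1 ⬝ᵥ v.2

/-- `K` (the preimage in `T*ℝ²` of a subset of `T*𝕋²`) is a Lagrangian torus, invariant under the
geodesic flow of `g`: it is the image of an injective Lagrangian immersion
`ℝ²/ℤ² → T*ℝ²/ℤ²`, the field `hamField g` is tangent to it (and constant in the coordinates `θ`),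
and solutions of Hamilton's equations which start in `K` stay in `K`. -/
def IsInvariantLagrangianTorus (g : Plane → Matrix (Fin 2) (Fin 2) ℝ) (K : Set Phase) : Prop :=
  ∃ (Φ : Plane → Phase) (L : Matrix (Fin 2) (Fin 2) ℤ), ContDiff ℝ ∞ Φ ∧
    (∀ (θ : Plane) (k : Fin 2 → ℤ), Φ (θ + fun i => (k i : ℝ)) = shift (L.mulVec k) (Φ θ)) ∧
    (∀ (θ θ' : Plane) (m : Fin 2 → ℤ), Φ θ' = shift m (Φ θ) →
      ∃ k : Fin 2 → ℤ, θ' = θ + fun i => (k i : ℝ)) ∧
    (∀ θ, Function.Injective (fderiv ℝ Φ θ)) ∧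
    (∀ θ v w, omega (fderiv ℝ Φ θ v) (fderiv ℝ Φ θ w) = 0) ∧
    (∃ w : Plane, ∀ θ, hamField g (Φ θ) = fderiv ℝ Φ θ w) ∧
    K = {z | ∃ θ m, z = shift m (Φ θ)} ∧
    ∀ c : ℝ → Phase, (∀ t, HasDerivAt c (hamField g (c t)) t) → c 0 ∈ K → ∀ t, c t ∈ K

/-- The open set `W` is foliated by invariant Lagrangian tori: it is the disjoint union of a family
`𝓕` of invariant Lagrangian tori, and these are contained in the fibres of a smooth map
`G : T*𝕋² → ℝ²` which is a submersion on `W`. -/
def IsFoliatedByInvariantTori (g : Plane → Matrix (Fin 2) (Fin 2) ℝ) (W : Set Phase) : Prop :=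
  IsOpen W ∧ ∃ (𝓕 : Set (Set Phase)) (G : Phase → ℝ × ℝ),
    (∀ K ∈ 𝓕, IsInvariantLagrangianTorus g K) ∧
    (∀ K ∈ 𝓕, ∀ K' ∈ 𝓕, K ≠ K' → Disjoint K K') ∧
    W = {z | ∃ K ∈ 𝓕, z ∈ K} ∧
    ContDiff ℝ ∞ G ∧ (∀ z k, G (shift k z) = G z) ∧
    (∀ z ∈ W, Function.Surjective (fderiv ℝ G z)) ∧
    ∀ K ∈ 𝓕, ∀ z ∈ K, ∀ z' ∈ K, G z = G z'

/-- `g` is globally integrable: some open dense subset of `T*𝕋²` is foliated by invariant
Lagrangian tori. -/
def GloballyIntegrable (g : Plane → Matrix (Fin 2) (Fin 2) ℝ) : Prop :=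
  ∃ W : Set Phase, Dense W ∧ IsFoliatedByInvariantTori g W

/-- `g` is of Liouville type: there are a lattice `Λ = B ℤ²`, smooth functions `f₁`, `f₂` such that
`f₁(y₁) + f₂(y₂)` is positive and `Λ`-periodic, and an isometry `φ` of `(ℝ²/ℤ², g)` onto
`ℝ²/Λ` with the metric `(f₁(y₁) + f₂(y₂)) (dy₁² + dy₂²)`. -/
def IsLiouville (g : Plane → Matrix (Fin 2) (Fin 2) ℝ) : Prop :=
  ∃ (B : Matrix (Fin 2) (Fin 2) ℝ) (f₁ f₂ : ℝ → ℝ) (φ : Plane → Plane), B.det ≠ 0 ∧
    ContDiff ℝ ∞ f₁ ∧ ContDiff ℝ ∞ f₂ ∧ (∀ y : Plane, 0 < f₁ (y 0) + f₂ (y 1)) ∧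
    (∀ (y : Plane) (k : Fin 2 → ℤ), f₁ ((y + B.mulVec fun i => (k i : ℝ)) 0) +
      f₂ ((y + B.mulVec fun i => (k i : ℝ)) 1) = f₁ (y 0) + f₂ (y 1)) ∧
    ContDiff ℝ ∞ φ ∧ Function.Bijective φ ∧ (∀ x, Function.Bijective (fderiv ℝ φ x)) ∧
    (∀ (x : Plane) (k : Fin 2 → ℤ), φ (x + fun i => (k i : ℝ)) =
      φ x + B.mulVec fun i => (k i : ℝ)) ∧
    ∀ x v w : Plane, v ⬝ᵥ (g x).mulVec w =
      (f₁ (φ x 0) + f₂ (φ x 1)) * (fderiv ℝ φ x v ⬝ᵥ fderiv ℝ φ x w)

open Pool.Agent.TH309.Tor Pool.Agent.TH309.LA in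
theorem result : ∃ g : Plane → Matrix (Fin 2) (Fin 2) ℝ,
    IsMetric g ∧ GloballyIntegrable g ∧ ¬ IsLiouville g := by
  obtain ⟨P, hP⟩ := exists_small (1 / 100) (by norm_num)
  have hS : Small P := hP
  set g : Plane → Matrix (Fin 2) (Fin 2) ℝ := fun x =>
    Matrix.of (fun i j : Fin 2 => (if i = j then (2 : ℝ) else 1) / V2 P.S x) with hg
  have Sp : ∀ x, 0 < V2 P.S x := fun x => P.S_pos _
  have hen : energy g = HH P := by
    funext z
    unfold energy HH qT
    simp only [hg]
    rw [inv_g (Sp z.1)]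
    simp [Matrix.mulVec, dotProduct, Fin.sum_univ_two]
    ring
  have hsh : ∀ (k : Fin 2 → ℤ) (z : Phase), shift k z = z + vec k := by
    intro k z
    obtain ⟨x, p⟩ := z
    rw [vec_fst]
    rfl
  have hfield : ∀ z, hamField g z = ham (HH P) z := by
    intro z
    unfold hamField ham
    rw [hen]
    refine Prod.ext (funext fun i => ?_) (funext fun i => ?_)
    · rw [Jm_fst]
    · rw [Jm_snd]
  have hom : ∀ v w, omega v w = symp v w := by
    intro v w
    unfold omega symp dotProduct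
    rw [← Finset.sum_sub_distrib]
  set I := isys P hS with hI
  have IH : I.H = HH P := rfl
  refine ⟨g, ⟨?_, ?_, ?_⟩, ?_, ?_⟩
  · intro i j
    simp only [hg, Matrix.of_apply]
    exact contDiff_const.div (V2_contDiff P.contDiff_S) fun x => (Sp x).ne'
  · intro x
    exact posDef_g (Sp x)
  · intro x k
    simp only [hg]
    rw [S_per]
  · refine ⟨I.RegLevel, dense_regLevel hS, I.isOpen_regLevel, {K | ∃ z ∈ I.RegLevel, K = I.orb z},
      I.G, ?_, ?_, ?_, I.contDiff_G, ?_, ?_, ?_⟩
    · rintro K ⟨z, hz, rfl⟩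
      obtain ⟨Φ, L, h1, h2, h3, h4, h5, h6, h7, h8⟩ := I.torus z hz
      refine ⟨Φ, L, h1, fun θ k => by rw [hsh]; exact h3 θ k,
        fun θ θ' m h => h4 θ θ' m (by rw [← hsh]; exact h), h5,
        fun θ v w => by rw [hom]; exact h6 θ v w, ?_, ?_, ?_⟩
      · obtain ⟨w₀, hw₀⟩ := h7
        exact ⟨w₀, fun θ => by rw [hfield]; exact hw₀ θ⟩
      · rw [h8]
        ext w
        simp only [mem_ofPred_eq, hsh]
      · intro c hc h0 t
        exact I.invariant (fun t => by rw [IH, ← hfield]; exact hc t) h0 t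
    · rintro K ⟨z, hz, rfl⟩ K' ⟨z', hz', rfl⟩ hne
      rw [Set.disjoint_iff_inter_eq_empty, ← Set.not_nonempty_iff_eq_empty]
      exact fun h => hne (I.orb_disjoint h)
    · ext w
      simp only [mem_ofPred_eq]
      constructor
      · intro hw
        exact ⟨I.orb w, ⟨w, hw, rfl⟩, I.mem_orb w⟩
      · rintro ⟨K, ⟨z, hz, rfl⟩, hw⟩
        have hG := I.orb_G hw
        have e1 : I.H w = I.H z := congrArg Prod.fst hG
        have e2 : I.F w = I.F z := congrArg Prod.snd hG
        intro z' h1 h2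
        exact hz z' (by rw [h1, e1]) (by rw [h2, e2])
    · intro z k
      rw [hsh]
      exact I.G_per z k
    · intro z hz
      exact (hz z rfl rfl).surj
    · rintro K ⟨z, hz, rfl⟩ w hw w' hw'
      rw [I.orb_G hw, I.orb_G hw']
  · rintro ⟨B, f₁, f₂, φ, -, -, -, hpos, -, hφ, -, -, hB, hiso⟩
    refine not_liouville P (f₁ := f₁) (f₂ := f₂) hφ hB (fun x => hpos (φ x)) fun x v w => ?_
    have h := hiso x v w
    simp only [hg, Matrix.mulVec, dotProduct, Fin.sum_univ_two, Matrix.of_apply] at h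
    rw [← h]
    simp
    ring

end Pool.Agent.Results.MP_238ae6_gt.NonLiouville
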